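import Pool.Agent.Run7.h700.KC.Rate2
import Pool.Agent.Run7.h712.KC.UP

/-!
# The constants in Korenblum's maximum principle tend to one at a logarithmic rate (MP_ccab6c_an, Q1)

For all real `p > 1` the optimal constant `c(p)` of the maximum principle in the Bergman space `A^p`
satisfies `1 - 1000 / log p ≤ c(p)`, and `c(p) ≤ (2 / (p + 2)) ^ (1 / p)` for all `p > 0`. The distance from
`c(p)` to `1` is at most `1000 / log p` and at least about `log (p / 2) / p`.

Proof of the lower bound, `r = 1 - h`, `p ≥ exp (1000 / h)`. If `g` has no zeros for `|z| ≤ r` then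
`|f| ≤ |g|` everywhere. Otherwise let `g b = 0`, `|b| ≤ r`, and `ω = f / g` on the annulus, `|ω| ≤ 1`. Let
`s = r + h / 4`, `t = r + 3 h / 4`. By the lemma of Schwarz and Pick on a chain of `N ≤ 161 / h` disks
all the numbers `1 - |ω z|`, `s ≤ |z| ≤ t`, are comparable to `δ = 1 - |ω z₁|` with constants exponential in
`N`, and so is `|ω z - ω z₁|`. Let `M₁` and `M₃` be the maxima of `|f|` on `|z| = s` and on
`|z| = (s + t) / 2`, `z*` a point of the second circle with `|f z*| = M₃`. Then `|g|^p ≥ |f|^p (1 + c δ)^p` on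
the disk with center `z*` and radius `d = h / 4`, so the integral of `|g|^p` over the annulus exceeds that of
`|f|^p` by at least `((1 + c δ)^p - 1) π d² M₃^p`. If `δ` is not small this exceeds `π M₁^p`, enough, as the
integral of `|f|^p` over `|z| ≤ r` is at most that. If `δ` is small then, with `e = ω z₁ / |ω z₁|`,
`|f - e g| ≤ 2 C δ M₁` for `|z| ≤ s`, by the maximum principle; at the zero `b` of `g` this gives
`|f b| ≤ M₁ / 2`, so `M₁ ≤ q M₃` with `q < 1` explicit (chain of disks again), and the gain over the annulus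
exceeds the loss over `|z| ≤ r`.

Upper bound: `f = 1`, `g z = z / r`.

The pieces were written by helper884 (Schwarz and Pick), helper459 (chain of disks), helper642 (annulus),
helper648 (disk, case of no zeros), helper989 (quotient), helper824 (mean values), helper712 (the integral of
`|z|^p`) and helper700.
-/

set_option autoImplicit false

namespace Pool.Agent.Results.MP_ccab6c_an.LogarithmicRate

/-- The numbers `c` in `[0, 1)` admissible for `p`: whenever `f`, `g` are analytic in the unit disk and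
`|f| ≤ |g|` for `c < |z| < 1`, then `∫ |f|^p ≤ ∫ |g|^p` over the unit disk (both may be infinite). -/
def admissible (p : ℝ) : Set ℝ :=
  {c : ℝ | 0 ≤ c ∧ c < 1 ∧
    ∀ f g : ℂ → ℂ, DifferentiableOn ℂ f (Metric.ball 0 1) →
      DifferentiableOn ℂ g (Metric.ball 0 1) →
      (∀ z : ℂ, c < ‖z‖ → ‖z‖ < 1 → ‖f z‖ ≤ ‖g z‖) →
      ∫⁻ z in Metric.ball (0 : ℂ) 1, ‖f z‖ₑ ^ p ≤ ∫⁻ z in Metric.ball (0 : ℂ) 1, ‖g z‖ₑ ^ p}

/-- The optimal constant `c(p)`. -/
noncomputable def optimal (p : ℝ) : ℝ := sSup (admissible p)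

/-- `c(p) ≥ 1 - 1000 / log p` for all `p > 1` and `c(p) ≤ (2 / (p + 2)) ^ (1 / p)` for all `p > 0`. -/
theorem result :
    (∀ p : ℝ, 1 < p → 1 - 1000 / Real.log p ≤ optimal p) ∧
    (∀ p : ℝ, 0 < p → optimal p ≤ (2 / (p + 2)) ^ (1 / p)) :=
  ⟨fun _ hp => Pool.Agent.Run7.h700.KC.rate_lower hp,
    fun _ hp => Pool.Agent.Run7.h700.KC.rate_upper Run7.h712.KC.t_UP hp⟩

end Pool.Agent.Results.MP_ccab6c_an.LogarithmicRate
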